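import Mathlib

/-!
# MP_193372_co : the largest chromatic numbers of unit, midpoint-unit and midpoint-proper veto
interval graphs are 4, 3 and 3.
-/

namespace Pool.Agent.Results.MP_193372_co.ChiMax

open Finset

/-- `(l, m, r)` is a veto interval representation of `G` (`m` = veto marks): `l < m < r`, the
triples are pairwise distinct, and distinct vertices are adjacent iff their intervals meet and
neither contains the veto mark of the other. -/
def IsVIRep {V : Type*} (G : SimpleGraph V) (l m r : V → ℝ) : Prop :=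
  (∀ a, l a < m a ∧ m a < r a) ∧
  Function.Injective (fun a => (l a, m a, r a)) ∧
  ∀ a b, a ≠ b → (G.Adj a b ↔
    (m a < l b ∧ l b < r a ∧ r a < m b) ∨ (m b < l a ∧ l a < r b ∧ r b < m a))

/-- all intervals have the same length -/
def Unit' {V : Type*} (l r : V → ℝ) : Prop := ∀ a b, r a - l a = r b - l b

/-- every veto mark is the midpoint of its interval -/
def Midpoint {V : Type*} (l m r : V → ℝ) : Prop := ∀ a, m a = (l a + r a) / 2

/-- no interval properly contains another -/
def Proper {V : Type*} (l r : V → ℝ) : Prop :=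
  ∀ a b, ¬ (Set.Icc (l a) (r a) ⊂ Set.Icc (l b) (r b))

/-- Unit veto interval graphs. -/
def IsUVI {V : Type*} (G : SimpleGraph V) : Prop :=
  ∃ l m r : V → ℝ, IsVIRep G l m r ∧ Unit' l r

/-- Midpoint unit veto interval graphs. -/
def IsMUVI {V : Type*} (G : SimpleGraph V) : Prop :=
  ∃ l m r : V → ℝ, IsVIRep G l m r ∧ Midpoint l m r ∧ Unit' l r

/-- Midpoint proper veto interval graphs. -/
def IsMPVI {V : Type*} (G : SimpleGraph V) : Prop :=
  ∃ l m r : V → ℝ, IsVIRep G l m r ∧ Midpoint l m r ∧ Proper l r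

lemma IsMUVI.isMPVI {V : Type*} {G : SimpleGraph V} (h : IsMUVI G) : IsMPVI G := by
  obtain ⟨l, m, r, hrep, hmid, hunit⟩ := h
  refine ⟨l, m, r, hrep, hmid, ?_⟩
  intro a b hab
  have hlt := hrep.1 a
  have h1 : l a ∈ Set.Icc (l b) (r b) := hab.1 ⟨le_rfl, by linarith⟩
  have h2 : r a ∈ Set.Icc (l b) (r b) := hab.1 ⟨by linarith, le_rfl⟩
  have hu := hunit a b
  apply hab.2
  intro x hx
  exact ⟨by linarith [h1.1, h1.2, h2.1, h2.2, hx.1], by linarith [h1.1, h1.2, h2.1, h2.2, hx.2]⟩

/-! ### Upper bound 4 for unit veto interval graphs -/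

lemma uvi_colorable {V : Type*} {G : SimpleGraph V} (h : IsUVI G) : G.Colorable 4 := by
  classical
  obtain ⟨l, m, r, ⟨hlt, -, hadj⟩, hunit⟩ := h
  rcases isEmpty_or_nonempty V with hV | ⟨⟨v₀⟩⟩
  · exact SimpleGraph.Colorable.of_isEmpty 4
  set ℓ := r v₀ - l v₀ with hℓ
  have hℓ0 : 0 < ℓ := by have := hlt v₀; rw [hℓ]; linarith
  have hr : ∀ a, r a = l a + ℓ := by intro a; have := hunit a v₀; rw [hℓ]; linarith
  let n : V → ℤ := fun a => ⌊l a / ℓ⌋
  have hn1 : ∀ a, (n a : ℝ) * ℓ ≤ l a := by
    intro a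
    have := Int.floor_le (l a / ℓ)
    rwa [le_div_iff₀ hℓ0] at this
  have hn2 : ∀ a, l a < ((n a : ℝ) + 1) * ℓ := by
    intro a
    have := Int.lt_floor_add_one (l a / ℓ)
    rwa [div_lt_iff₀ hℓ0] at this
  let col : V → Bool × Bool := fun a => (decide (n a % 2 = 0), decide (m a < ((n a : ℝ) + 1) * ℓ))
  have hcol : ∀ a b, (m a < l b ∧ l b < r a ∧ r a < m b) → col a ≠ col b := by
    rintro a b ⟨h1, h2, h3⟩ he
    simp only [col, Prod.mk.injEq, decide_eq_decide] at he
    obtain ⟨he1, he2⟩ := he
    have ha := hlt a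
    have hb := hlt b
    have hra := hr a
    have hle : n a ≤ n b := by
      apply Int.floor_le_floor
      apply div_le_div_of_nonneg_right _ hℓ0.le
      linarith
    have hle2 : n b ≤ n a + 1 := by
      have h4 : (n b : ℝ) * ℓ < ((n a : ℝ) + 2) * ℓ := by
        have := hn1 b
        have := hn2 a
        nlinarith
      have h5 : (n b : ℝ) < (n a : ℝ) + 2 := lt_of_mul_lt_mul_right h4 hℓ0.le
      have h6 : n b < n a + 2 := by exact_mod_cast h5
      omega
    have heq : n b = n a := by omega
    have t1 : m a < ((n a : ℝ) + 1) * ℓ := by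
      have := hn2 b
      rw [heq] at this
      linarith
    have t2 : ¬ m b < ((n b : ℝ) + 1) * ℓ := by
      have := hn1 a
      rw [heq]
      nlinarith
    exact t2 (he2.1 t1)
  have C : G.Coloring (Bool × Bool) := SimpleGraph.Coloring.mk col (by
    intro a b hab
    rcases (hadj a b hab.ne).1 hab with h | h
    · exact hcol a b h
    · exact (hcol b a h).symm)
  have := C.colorable
  simpa using this

/-! ### Upper bound 3 for midpoint proper veto interval graphs -/

section height

variable {V : Type*} [Fintype V] (lt : V → V → Prop) (hwf : WellFounded lt)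

open Classical in
/-- The height function of a well-founded relation on a finite type. -/
noncomputable def ht (b : V) : ℕ :=
  hwf.fix (C := fun _ => ℕ) (fun b ih => univ.sup (fun a => if h : lt a b then ih a h + 1 else 0)) b

open Classical in
lemma ht_eq (b : V) :
    ht lt hwf b = univ.sup (fun a => if lt a b then ht lt hwf a + 1 else 0) := by
  unfold ht
  rw [WellFounded.fix_eq]
  congr 1

lemma ht_lt {a b : V} (h : lt a b) : ht lt hwf a + 1 ≤ ht lt hwf b := by
  classical
  rw [ht_eq lt hwf b]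
  have := Finset.le_sup (f := fun a => if lt a b then ht lt hwf a + 1 else 0) (mem_univ a)
  simpa [h] using this

lemma ht_pred {b : V} (h : ht lt hwf b ≠ 0) : ∃ a, lt a b ∧ ht lt hwf b = ht lt hwf a + 1 := by
  classical
  have hne : (univ : Finset V).Nonempty := ⟨b, mem_univ b⟩
  obtain ⟨a, -, ha⟩ := Finset.exists_mem_eq_sup univ hne
    (fun a => if lt a b then ht lt hwf a + 1 else 0)
  rw [← ht_eq lt hwf b] at ha
  by_cases hab : lt a b
  · exact ⟨a, hab, by simpa [hab] using ha⟩
  · simp only [hab, if_false] at ha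
    exact absurd ha h

end height

lemma mpvi_colorable {V : Type*} [Finite V] {G : SimpleGraph V} (h : IsMPVI G) :
    G.Colorable 3 := by
  classical
  have := Fintype.ofFinite V
  obtain ⟨l, m, r, ⟨hlt, hinj, hadj⟩, hmid, hprop⟩ := h
  have hord : ∀ a b, l a ≤ l b → r a ≤ r b := by
    intro a b h
    by_contra hc
    push Not at hc
    refine hprop b a ?_
    rw [Set.ssubset_iff_subset_ne]
    refine ⟨Set.Icc_subset_Icc h hc.le, ?_⟩
    intro he
    have : r a ∈ Set.Icc (l b) (r b) := by
      rw [he]; exact ⟨((hlt a).1.trans (hlt a).2).le, le_rfl⟩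
    exact absurd this.2 (not_le.2 hc)
  have hordm : ∀ a b, l a ≤ l b → m a ≤ m b := by
    intro a b h
    have := hord a b h
    rw [hmid a, hmid b]
    linarith
  -- the relation a ≪ b
  let R : V → V → Prop := fun a b => m a < l b ∧ r a < m b
  have hRl : ∀ a b, R a b → l a < l b := fun a b h => (hlt a).1.trans h.1
  have hmono : ∀ a a' b b', l a' ≤ l a → l b ≤ l b' → R a b → R a' b' := by
    intro a a' b b' h1 h2 h3
    exact ⟨(hordm a' a h1).trans_lt (h3.1.trans_le h2),
      (hord a' a h1).trans_lt (h3.2.trans_le (hordm b b' h2))⟩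
  have hwf : WellFounded R := by
    have : WellFounded (fun a b : V => l a < l b) := by
      have : IsTrans V (fun a b : V => l a < l b) := ⟨fun a b c h1 h2 => h1.trans h2⟩
      have : Std.Irrefl (fun a b : V => l a < l b) := ⟨fun a h => lt_irrefl _ h⟩
      exact Finite.wellFounded_of_trans_of_irrefl _
    exact Subrelation.wf (fun {a b} h => hRl a b h) this
  set H : V → ℕ := ht R hwf with hH
  have H1 : ∀ a b, R a b → H a + 1 ≤ H b := fun a b h => ht_lt R hwf h
  have H2 : ∀ b, H b ≠ 0 → ∃ a, R a b ∧ H b = H a + 1 := fun b h => ht_pred R hwf h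
  have H3 : ∀ a b, l a ≤ l b → H a ≤ H b := by
    intro a b hab
    by_cases h0 : H a = 0
    · omega
    · obtain ⟨c, hc, hc'⟩ := H2 a h0
      have := H1 c b (hmono c c a b le_rfl hab hc)
      omega
  -- adjacent vertices differ in height by 1 or 2
  have key : ∀ a b, (m a < l b ∧ l b < r a ∧ r a < m b) → H a + 1 ≤ H b ∧ H b ≤ H a + 2 := by
    rintro a b ⟨h1, h2, h3⟩
    refine ⟨H1 a b ⟨h1, h3⟩, ?_⟩
    by_contra hc
    push Not at hc
    obtain ⟨c, hcb, hc'⟩ := H2 b (by omega)
    obtain ⟨d, hdc, hd'⟩ := H2 c (by omega)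
    have had : l a < l d := by
      by_contra hh
      have := H3 d a (not_lt.1 hh)
      omega
    have hac : R a c := hmono d a c c had.le le_rfl hdc
    have hcb' := hRl c b hcb
    have hac' := hRl a c hac
    -- a, c, b would be a triangle with c's interval containing the mark of neither
    -- direct contradiction from the midpoint/triangle structure
    have e1 : m a < l c := hac.1
    have e2 : r a < m c := hac.2
    have e3 : m c < l b := hcb.1
    linarith
  have C : G.Coloring (Fin 3) := SimpleGraph.Coloring.mk (fun a => (⟨H a % 3, by omega⟩ : Fin 3)) (by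
    intro a b hab he
    simp only [Fin.mk.injEq] at he
    rcases (hadj a b hab.ne).1 hab with h | h
    · have := key a b h
      omega
    · have := key b a h
      omega)
  exact C.colorable

/-! ### Lower bounds -/

/-- doubled left endpoints of 16 unit veto intervals (length 16) -/
def lL : List ℕ := [26, 12, 4, 18, 22, 8, 8, 22, 16, 18, 30, 12, 26, 14, 0, 4]

/-- their marks -/
def mL : List ℕ := [41, 25, 5, 21, 35, 9, 21, 25, 17, 33, 45, 13, 29, 29, 1, 17]

/-- left endpoints -/
def lN : Fin 16 → ℕ := fun i => lL.getD i 0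

/-- marks -/
def mN : Fin 16 → ℕ := fun i => mL.getD i 0

/-- adjacency on natural number data with right endpoint `l + ℓ` -/
def adjN {n : ℕ} (ℓ : ℕ) (l m : Fin n → ℕ) (a b : Fin n) : Prop :=
  (m a < l b ∧ l b < l a + ℓ ∧ l a + ℓ < m b) ∨ (m b < l a ∧ l a < l b + ℓ ∧ l b + ℓ < m a)

instance {n : ℕ} (ℓ : ℕ) (l m : Fin n → ℕ) (a b : Fin n) : Decidable (adjN ℓ l m a b) := by
  unfold adjN; infer_instance

/-- the graph of natural number data -/
def graphN {n : ℕ} (ℓ : ℕ) (l m : Fin n → ℕ) : SimpleGraph (Fin n) where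
  Adj a b := a ≠ b ∧ adjN ℓ l m a b
  symm := ⟨fun _ _ h => ⟨h.1.symm, h.2.symm⟩⟩
  loopless := ⟨fun _ h => h.1 rfl⟩

instance {n : ℕ} (ℓ : ℕ) (l m : Fin n → ℕ) : DecidableRel (graphN ℓ l m).Adj := by
  intro a b
  unfold graphN
  infer_instance

lemma graphN_rep {n : ℕ} (ℓ : ℕ) (l m : Fin n → ℕ) (h1 : ∀ a, l a < m a ∧ m a < l a + ℓ)
    (h2 : ∀ a b, l a = l b → m a = m b → a = b) :
    IsVIRep (graphN ℓ l m) (fun a => (l a : ℝ)) (fun a => (m a : ℝ)) (fun a => (l a : ℝ) + ℓ) := by
  refine ⟨?_, ?_, ?_⟩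
  · intro a
    have := h1 a
    constructor
    · show (l a : ℝ) < (m a : ℝ)
      exact_mod_cast this.1
    · show (m a : ℝ) < (l a : ℝ) + ℓ
      exact_mod_cast this.2
  · intro a b hab
    simp only [Prod.mk.injEq] at hab
    exact h2 a b (by exact_mod_cast hab.1) (by exact_mod_cast hab.2.1)
  · intro a b hab
    have e : (graphN ℓ l m).Adj a b ↔ adjN ℓ l m a b := ⟨fun h => h.2, fun h => ⟨hab, h⟩⟩
    rw [e]
    unfold adjN
    beta_reduce
    norm_cast

lemma uvi_example : IsUVI (graphN 16 lN mN) :=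
  ⟨_, _, _, graphN_rep 16 lN mN (by decide) (by decide), fun a b => by ring⟩

/-- Boolean adjacency -/
def adjB (a b : ℕ) : Bool :=
  (Nat.blt (mL.getD a 0) (lL.getD b 0) && Nat.blt (lL.getD b 0) (lL.getD a 0 + 16) &&
    Nat.blt (lL.getD a 0 + 16) (mL.getD b 0)) ||
  (Nat.blt (mL.getD b 0) (lL.getD a 0) && Nat.blt (lL.getD a 0) (lL.getD b 0 + 16) &&
    Nat.blt (lL.getD b 0 + 16) (mL.getD a 0))

lemma adjB_iff (a b : Fin 16) (h : adjB a b = true) (hab : a ≠ b) : (graphN 16 lN mN).Adj a b := by
  refine ⟨hab, ?_⟩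
  unfold adjB at h
  unfold adjN lN mN
  simpa [and_assoc] using h

/-- Does colour `c` at vertex `k` conflict with the list of colours of the vertices
`cols.length - 1, …, 0`? -/
def conflict (k c : ℕ) : List ℕ → Bool
  | [] => false
  | d :: ds => (adjB k ds.length && Nat.beq d c) || conflict k c ds

/-- Backtracking search: `true` if the partial colouring `cols` of the vertices `0..k-1` has no
extension to the next `fuel` vertices. -/
def search : ℕ → ℕ → List ℕ → Bool
  | 0, _, _ => false
  | fuel + 1, k, cols =>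
    (conflict k 0 cols || search fuel (k + 1) (0 :: cols)) &&
    (conflict k 1 cols || search fuel (k + 1) (1 :: cols)) &&
    (conflict k 2 cols || search fuel (k + 1) (2 :: cols))

/-- colours of the first `k` vertices, latest first -/
def cols (col : ℕ → ℕ) : ℕ → List ℕ
  | 0 => []
  | k + 1 => col k :: cols col k

lemma cols_length (col : ℕ → ℕ) (k : ℕ) : (cols col k).length = k := by
  induction k with
  | zero => rfl
  | succ k ih => simp [cols, ih]

lemma conflict_sound (col : ℕ → ℕ) (k c j : ℕ) (h : conflict k c (cols col j) = true) :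
    ∃ i, i < j ∧ adjB k i = true ∧ col i = c := by
  induction j with
  | zero => simp [cols, conflict] at h
  | succ j ih =>
    simp only [cols, conflict, cols_length, Bool.or_eq_true, Bool.and_eq_true] at h
    rcases h with ⟨h1, h2⟩ | h
    · exact ⟨j, Nat.lt_succ_self j, h1, Nat.eq_of_beq_eq_true h2⟩
    · obtain ⟨i, hi, h'⟩ := ih h
      exact ⟨i, by omega, h'⟩

lemma search_sound (col : ℕ → ℕ) (hcol : ∀ i, col i < 3) (n : ℕ)
    (hadj : ∀ k i, k < n → i < k → adjB k i = true → col i ≠ col k) (fuel : ℕ) :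
    ∀ k, k + fuel ≤ n → search fuel k (cols col k) = true → False := by
  induction fuel with
  | zero => intro k _ h; simp [search] at h
  | succ fuel ih =>
    intro k hk h
    simp only [search, Bool.and_eq_true, Bool.or_eq_true] at h
    obtain ⟨⟨h0, h1⟩, h2⟩ := h
    have key : ∀ c, col k = c → (conflict k c (cols col k) = true ∨
        search fuel (k + 1) (c :: cols col k) = true) → False := by
      rintro c rfl (h | h)
      · obtain ⟨i, hi, hi1, hi2⟩ := conflict_sound col k _ k h
        exact hadj k i (by omega) hi hi1 hi2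
      · exact ih (k + 1) (by omega) h
    have hc := hcol k
    have : col k = 0 ∨ col k = 1 ∨ col k = 2 := by omega
    rcases this with e | e | e
    · exact key 0 e h0
    · exact key 1 e h1
    · exact key 2 e h2

lemma search_true : search 16 0 [] = true := by decide +kernel

lemma not_three : ¬ (graphN 16 lN mN).Colorable 3 := by
  rintro ⟨c⟩
  let col : ℕ → ℕ := fun i => if h : i < 16 then (c ⟨i, h⟩ : ℕ) else 0
  refine search_sound col ?_ 16 ?_ 16 0 le_rfl search_true
  · intro i
    by_cases h : i < 16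
    · simp only [col, h, dif_pos]
      exact (c ⟨i, h⟩).2
    · simp only [col, h, dif_neg, not_false_iff]
      norm_num
  · intro k i hk hi hadj he
    have hi' : i < 16 := by omega
    simp only [col, hk, hi', dif_pos] at he
    have hne : (⟨k, hk⟩ : Fin 16) ≠ ⟨i, hi'⟩ := by
      intro h
      rw [Fin.mk.injEq] at h
      omega
    exact c.valid (adjB_iff ⟨k, hk⟩ ⟨i, hi'⟩ hadj hne) (Fin.ext he.symm)

/-- left endpoints of five unit intervals (length 20, midpoint marks) forming a 5-cycle -/
def l5 : Fin 5 → ℕ := ![0, 6, 12, 18, 24]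

/-- their midpoints -/
def m5 : Fin 5 → ℕ := ![10, 16, 22, 28, 34]

lemma m5_eq (a : Fin 5) : m5 a = l5 a + 10 := by
  fin_cases a <;> rfl

lemma muvi_example : IsMUVI (graphN 20 l5 m5) := by
  refine ⟨_, _, _, graphN_rep 20 l5 m5 (by decide) (by decide), ?_, fun a b => by ring⟩
  intro a
  have : (m5 a : ℝ) = l5 a + 10 := by exact_mod_cast m5_eq a
  simp only [this]
  push_cast
  ring

lemma not_two : ¬ (graphN 20 l5 m5).Colorable 2 := by
  rintro ⟨c⟩
  have h : ∀ a b, (graphN 20 l5 m5).Adj a b → c a ≠ c b := fun a b hab => c.valid hab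
  have h1 := h 0 2 (by decide)
  have h2 := h 2 4 (by decide)
  have h3 := h 4 1 (by decide)
  have h4 := h 1 3 (by decide)
  have h5 := h 3 0 (by decide)
  have key : ∀ a b c d e : Fin 2, a ≠ b → b ≠ c → c ≠ d → d ≠ e → ¬ e ≠ a := by decide
  exact key _ _ _ _ _ h1 h2 h3 h4 h5

lemma chi_eq {V : Type*} {G : SimpleGraph V} {k : ℕ} (h1 : G.Colorable (k + 1))
    (h2 : ¬ G.Colorable k) : G.chromaticNumber = ((k + 1 : ℕ) : ℕ∞) := by
  apply le_antisymm h1.chromaticNumber_le
  rw [SimpleGraph.le_chromaticNumber_iff_colorable]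
  intro j hj
  by_contra hc
  push Not at hc
  have : j < k + 1 := by exact_mod_cast hc
  exact h2 (hj.mono (by omega))

/-- **MP_193372_co, Q1.**  The maximum chromatic number is `4` over all finite unit veto interval
graphs, `3` over all finite midpoint unit veto interval graphs, and `3` over all finite midpoint
proper veto interval graphs. -/
theorem result :
    IsGreatest {k : ℕ∞ | ∃ (n : ℕ) (G : SimpleGraph (Fin n)), IsUVI G ∧ G.chromaticNumber = k} 4 ∧
    IsGreatest {k : ℕ∞ | ∃ (n : ℕ) (G : SimpleGraph (Fin n)), IsMUVI G ∧ G.chromaticNumber = k} 3 ∧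
    IsGreatest {k : ℕ∞ | ∃ (n : ℕ) (G : SimpleGraph (Fin n)), IsMPVI G ∧ G.chromaticNumber = k} 3 := by
  have e5 : (graphN 20 l5 m5).chromaticNumber = 3 :=
    chi_eq (k := 2) (mpvi_colorable muvi_example.isMPVI) not_two
  refine ⟨⟨?_, ?_⟩, ⟨?_, ?_⟩, ⟨?_, ?_⟩⟩
  · exact ⟨16, _, uvi_example, chi_eq (k := 3) (uvi_colorable uvi_example) not_three⟩
  · rintro k ⟨n, G, hG, rfl⟩
    exact (uvi_colorable hG).chromaticNumber_le
  · exact ⟨5, _, muvi_example, e5⟩
  · rintro k ⟨n, G, hG, rfl⟩
    exact (mpvi_colorable hG.isMPVI).chromaticNumber_le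
  · exact ⟨5, _, muvi_example.isMPVI, e5⟩
  · rintro k ⟨n, G, hG, rfl⟩
    exact (mpvi_colorable hG).chromaticNumber_le

end Pool.Agent.Results.MP_193372_co.ChiMax
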